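import Pool.Agent.Helper10.RC.Basic

/-!
# MP_b55b7c_an, packet RC-Halv: halving a projection
-/

open scoped ENNReal NNReal InnerProductSpace ComplexOrder
open Filter Topology

attribute [-instance] CStarMatrix.instAlgebra CStarMatrix.instModule CStarMatrix.instSMul
  CStarMatrix.instMulAction CStarMatrix.instDistribMulAction

noncomputable section
namespace RC
universe u

theorem halv_pi {R : Type u} [CStarAlgebra R] {v : R} (h : IsStarProjection (star v * v)) :
    v * (star v * v) = v := by
  have hi : star v * v * (star v * v) = star v * v := h.isIdempotentElem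
  have h0 : star (v - v * (star v * v)) * (v - v * (star v * v)) = 0 := by
    have e1 : star (v - v * (star v * v)) = star v - star v * v * star v := by
      simp only [star_sub, star_mul, star_star, mul_assoc]
    rw [e1]
    have e2 : (star v - star v * v * star v) * (v - v * (star v * v)) =
        star v * v - star v * v * (star v * v) - star v * v * (star v * v) +
          star v * v * (star v * v) * (star v * v) := by
      simp only [sub_mul, mul_sub, mul_assoc]
      abel
    rw [e2, hi, hi]
    abel
  have h1 := CStarRing.star_mul_self_eq_zero_iff _ |>.1 h0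
  exact (sub_eq_zero.1 h1).symm

theorem halvP (h1 : MaxP.{u}) (h2 : TwoP.{u}) : HalvP.{u} := by
  intro H _ _ _ S ξ hF hNA e heS he
  have hcs : ∀ x ∈ S.centralizer, star x ∈ S.centralizer := by
    intro x hx m hm
    have := hx (star m) (hF.star m hm)
    have h' := congrArg star this
    simpa only [star_mul, star_star] using h'.symm
  have hcm : ∀ x ∈ S.centralizer, ∀ y ∈ S.centralizer, x * y ∈ S.centralizer :=
    fun x hx y hy => Set.mul_mem_centralizer hx hy
  have hca : ∀ x ∈ S.centralizer, ∀ y ∈ S.centralizer, x + y ∈ S.centralizer :=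
    fun x hx y hy => Set.add_mem_centralizer hx hy
  have hcn : ∀ x ∈ S.centralizer, ∀ y ∈ S.centralizer, x - y ∈ S.centralizer := by
    intro x hx y hy
    rw [sub_eq_add_neg]
    exact hca x hx _ (Set.neg_mem_centralizer hy)
  have hee : e * e = e := he.isIdempotentElem
  have hes : star e = e := he.isSelfAdjoint
  obtain ⟨v, ⟨hvS, hvP, hev, hve, hvv⟩, hmax⟩ := h1 H S ξ hF
    {v | v ∈ S.centralizer ∧ IsStarProjection (star v * v) ∧ e * v = v ∧ v * e = v ∧ v * v = 0}
    (by
      refine ⟨Set.zero_mem_centralizer, ?_, by simp, by simp, by simp⟩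
      simp)
    (fun v hv => ⟨hv.1, hv.2.1⟩)
    (by
      intro v w hv _ hwS hwP _ hlim _
      refine ⟨hwS, hwP, ?_, ?_, ?_⟩
      · ext ζ
        have a1 : Tendsto (fun n => e (v n ζ)) atTop (𝓝 (e (w ζ))) :=
          (e.continuous.tendsto _).comp (hlim ζ)
        have a2 : (fun n => e (v n ζ)) = fun n => v n ζ := by
          funext n
          exact congrArg (fun T : H →L[ℂ] H => T ζ) (hv n).2.2.1
        rw [a2] at a1
        exact tendsto_nhds_unique a1 (hlim ζ)
      · ext ζ
        have a1 : Tendsto (fun n => v n (e ζ)) atTop (𝓝 (w (e ζ))) := hlim (e ζ)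
        have a2 : (fun n => v n (e ζ)) = fun n => v n ζ := by
          funext n
          exact congrArg (fun T : H →L[ℂ] H => T ζ) (hv n).2.2.2.1
        rw [a2] at a1
        exact tendsto_nhds_unique a1 (hlim ζ)
      · ext ζ
        have a1 : Tendsto (fun n => v n (w ζ)) atTop (𝓝 (w (w ζ))) := hlim (w ζ)
        have a3 : ∀ n, ‖v n (w ζ)‖ ≤ ‖w ζ - v n ζ‖ := by
          intro n
          have b1 : v n (v n ζ) = 0 := by
            have := congrArg (fun T : H →L[ℂ] H => T ζ) (hv n).2.2.2.2
            simpa using this
          have b2 : v n (w ζ) = v n (w ζ - v n ζ) := by rw [map_sub, b1, sub_zero]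
          have b3 : ‖v n‖ ≤ 1 := by
            have c1 : ‖star (v n) * v n‖ ≤ 1 := (hv n).2.1.norm_le
            rw [CStarRing.norm_star_mul_self] at c1
            nlinarith [norm_nonneg (v n)]
          rw [b2]
          calc ‖v n (w ζ - v n ζ)‖ ≤ ‖v n‖ * ‖w ζ - v n ζ‖ := (v n).le_opNorm _
            _ ≤ 1 * ‖w ζ - v n ζ‖ := by gcongr
            _ = _ := one_mul _
        have a4 : Tendsto (fun n => ‖w ζ - v n ζ‖) atTop (𝓝 0) := by
          have := (tendsto_const_nhds (x := w ζ)).sub (hlim ζ)
          rw [sub_self] at this
          simpa using this.norm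
        have a5 : Tendsto (fun n => v n (w ζ)) atTop (𝓝 0) :=
          squeeze_zero_norm a3 a4
        exact tendsto_nhds_unique a1 a5)
  refine ⟨v, hvS, hvP, ?_⟩
  by_contra hne
  -- algebra
  have hsv : star v ∈ S.centralizer := hcs v hvS
  have k1 : v * (star v * v) = v := halv_pi hvP
  have k2 : star v * v * star v = star v := by
    have := congrArg star k1
    simpa only [star_mul, star_star, mul_assoc] using this
  have k3 : star v * star v = 0 := by
    have := congrArg star hvv
    simpa only [star_mul, star_zero] using this
  have k4 : star v * e = star v := by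
    have := congrArg star hev
    simpa only [star_mul, hes] using this
  have k5 : e * star v = star v := by
    have := congrArg star hve
    simpa only [star_mul, hes] using this
  set f := e - (star v * v + v * star v) with hf
  have hf0 : f ≠ 0 := fun h => hne (by rw [hf, sub_eq_zero] at h; exact h.symm)
  have hfv : f * v = 0 := by
    rw [hf, sub_mul, add_mul, hev, mul_assoc (star v), hvv, mul_assoc v, k1]
    simp
  have hvf : v * f = 0 := by
    rw [hf, mul_sub, mul_add, hve, k1, ← mul_assoc, hvv]
    simp
  have hfs : star f = f := by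
    simp only [hf, star_sub, star_add, star_mul, star_star, hes]
  have hfv' : f * star v = 0 := by
    have := congrArg star hvf
    simpa only [star_mul, hfs, star_zero] using this
  have hvf' : star v * f = 0 := by
    have := congrArg star hfv
    simpa only [star_mul, hfs, star_zero] using this
  have hfe : f * e = f := by
    rw [hf, sub_mul, add_mul, hee, mul_assoc, hve, mul_assoc, k4]
  have hef : e * f = f := by
    have := congrArg star hfe
    simpa only [star_mul, hfs, hes] using this
  have hff : f * f = f := by
    have : f * f = f * (e - (star v * v + v * star v)) := by rw [← hf]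
    rw [this, mul_sub, mul_add, hfe, ← mul_assoc, hfv', ← mul_assoc, hfv]
    simp
  have hfS : f ∈ S.centralizer :=
    hcn _ heS _ (hca _ (hcm _ hsv _ hvS) _ (hcm _ hvS _ hsv))
  obtain ⟨w, hwS, hwP, hw0, hfw, hwf, hww⟩ := h2 H S hF.star hNA f hfS ⟨hff, hfs⟩ hf0
  have m1 : v * w = 0 := by rw [← hfw, ← mul_assoc, hvf, zero_mul]
  have m2 : w * v = 0 := by rw [← hwf, mul_assoc, hfv, mul_zero]
  have m3 : star v * w = 0 := by rw [← hfw, ← mul_assoc, hvf', zero_mul]
  have m4 : star w * v = 0 := by
    have := congrArg star m3
    simpa only [star_mul, star_star, star_zero] using this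
  have m5 : w * star v = 0 := by rw [← hwf, mul_assoc, hfv', mul_zero]
  have m6 : star w * star v = 0 := by
    have := congrArg star m1
    simpa only [star_mul, star_zero] using this
  have m7 : v * star w = 0 := by
    have := congrArg star m5
    simpa only [star_mul, star_star, star_zero] using this
  have n1 : star (v + w) * (v + w) = star v * v + star w * w := by
    simp only [star_add, add_mul, mul_add, m3, m4, add_zero, zero_add]
  have hsum : IsStarProjection (star v * v + star w * w) := by
    refine ⟨?_, ?_⟩
    · show (star v * v + star w * w) * (star v * v + star w * w) = _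
      have p1 : star v * v * (star v * v) = star v * v := hvP.isIdempotentElem
      have p2 : star w * w * (star w * w) = star w * w := hwP.isIdempotentElem
      have p3 : star v * v * (star w * w) = 0 := by
        rw [mul_assoc, ← mul_assoc v, m7]; simp
      have p4 : star w * w * (star v * v) = 0 := by
        rw [mul_assoc, ← mul_assoc w, m5]; simp
      rw [add_mul, mul_add, mul_add, p1, p2, p3, p4]
      simp
    · exact hvP.isSelfAdjoint.add hwP.isSelfAdjoint
  have hmem : v + w ∈ {v | v ∈ S.centralizer ∧ IsStarProjection (star v * v) ∧ e * v = v ∧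
      v * e = v ∧ v * v = 0} := by
    refine ⟨hca _ hvS _ hwS, ?_, ?_, ?_, ?_⟩
    · rw [n1]; exact hsum
    · rw [mul_add, hev, ← hfw, ← mul_assoc, hef]
    · rw [add_mul, hve, ← hwf, mul_assoc, hfe]
    · rw [add_mul, mul_add, mul_add, hvv, m1, m2, hww]; simp
  have hext : Ext v (v + w) := by
    show (v + w) * (star v * v) = v
    rw [add_mul, k1, ← mul_assoc, m5, zero_mul, add_zero]
  have := hmax _ hmem hext
  exact hw0 (by simpa using this)

end RC
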